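import Mathlib

/-!
Positivity of the limiting generalized eigenvalue of the pair (Hadamard square, matrix) of
fractional Brownian motion covariance matrices, for every `γ ∈ (0,2)`.
-/

set_option autoImplicit false

namespace Pool.Agent.Results.MP_271f9a_pr.KappaPositive

open MeasureTheory Real Set Filter Topology

noncomputable section

/-- Covariance of fractional Brownian motion with Hurst parameter `H`. -/
def RH (H s t : ℝ) : ℝ := (|s| ^ (2 * H) + |t| ^ (2 * H) - |s - t| ^ (2 * H)) / 2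

/-- The `N × N` matrix with entries `R_H(i,j)`, `1 ≤ i,j ≤ N`. -/
def covMatrix (H : ℝ) (N : ℕ) : Matrix (Fin N) (Fin N) ℝ :=
  Matrix.of fun i j => RH H ((i : ℕ) + 1 : ℝ) ((j : ℕ) + 1 : ℝ)

/-- The Hadamard (entrywise) square of the covariance matrix. -/
def covMatrixSq (H : ℝ) (N : ℕ) : Matrix (Fin N) (Fin N) ℝ :=
  Matrix.of fun i j => (covMatrix H N i j) ^ 2

/-- The quadratic form `a^* M a` of a real symmetric matrix at a complex vector. -/
def quadForm {N : ℕ} (M : Matrix (Fin N) (Fin N) ℝ) (a : Fin N → ℂ) : ℝ :=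
  (∑ i, ∑ j, star (a i) * (M i j : ℂ) * a j).re

/-- `κ(γ,N)`: infimum of the generalized Rayleigh quotient over nonzero complex vectors. -/
def kappaN (γ : ℝ) (N : ℕ) : ℝ :=
  ⨅ a : {a : Fin N → ℂ // a ≠ 0},
    quadForm (covMatrixSq (γ / 2) N) a.1 / quadForm (covMatrix (γ / 2) N) a.1

/-! ### The integral representation -/

lemma integrable_base {γ : ℝ} (h0 : 0 < γ) (h2 : γ < 2) (k : ℝ) :
    IntegrableOn (fun y => (1 - cos (k * y)) * y ^ (-1 - γ)) (Ioi 0) := by
  have hmeas : Measurable (fun y : ℝ => (1 - cos (k * y)) * y ^ (-1 - γ)) := by fun_prop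
  have hU : Ioi (0 : ℝ) = Ioc 0 1 ∪ Ioi 1 := (Ioc_union_Ioi_eq_Ioi zero_le_one).symm
  rw [hU]
  apply IntegrableOn.union
  · have h1 : IntegrableOn (fun y : ℝ => y ^ (1 - γ)) (Ioc 0 1) := by
      have := intervalIntegral.intervalIntegrable_rpow' (a := 0) (b := 1) (r := 1 - γ) (by linarith)
      rwa [intervalIntegrable_iff_integrableOn_Ioc_of_le zero_le_one] at this
    refine Integrable.mono' (h1.const_mul (k ^ 2 / 2)) hmeas.aestronglyMeasurable ?_
    refine (ae_restrict_iff' measurableSet_Ioc).mpr (Eventually.of_forall (fun y hy => ?_))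
    have hy0 : 0 < y := hy.1
    rw [norm_of_nonneg (mul_nonneg (by linarith [cos_le_one (k * y)]) (rpow_nonneg hy0.le _))]
    have hc : 1 - cos (k * y) ≤ (k * y) ^ 2 / 2 := by
      have := one_sub_sq_div_two_le_cos (x := k * y)
      linarith
    calc (1 - cos (k * y)) * y ^ (-1 - γ) ≤ ((k * y) ^ 2 / 2) * y ^ (-1 - γ) :=
          mul_le_mul_of_nonneg_right hc (rpow_nonneg hy0.le _)
      _ = k ^ 2 / 2 * y ^ (1 - γ) := by
          have : y ^ (1 - γ) = y ^ 2 * y ^ (-1 - γ) := by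
            rw [← rpow_natCast, ← rpow_add hy0]
            congr 1; push_cast; ring
          rw [this]; ring
  · have h1 : IntegrableOn (fun y : ℝ => y ^ (-1 - γ)) (Ioi 1) :=
      integrableOn_Ioi_rpow_of_lt (by linarith) one_pos
    refine Integrable.mono' (h1.const_mul 2) hmeas.aestronglyMeasurable ?_
    refine (ae_restrict_iff' measurableSet_Ioi).mpr (Eventually.of_forall (fun y hy => ?_))
    have hy0 : (0 : ℝ) < y := lt_trans one_pos hy
    rw [norm_of_nonneg (mul_nonneg (by linarith [cos_le_one (k * y)]) (rpow_nonneg hy0.le _))]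
    exact mul_le_mul_of_nonneg_right (by linarith [neg_one_le_cos (k * y)]) (rpow_nonneg hy0.le _)

/-- the constant -/
def CC (γ : ℝ) : ℝ := ∫ y in Ioi (0 : ℝ), (1 - cos y) * y ^ (-1 - γ)

lemma scaling {γ : ℝ} (h0 : 0 < γ) (n : ℝ) :
    ∫ y in Ioi (0 : ℝ), (1 - cos (n * y)) * y ^ (-1 - γ) = |n| ^ γ * CC γ := by
  have hpos : ∀ m : ℝ, 0 < m →
      ∫ y in Ioi (0 : ℝ), (1 - cos (m * y)) * y ^ (-1 - γ) = m ^ γ * CC γ := by
    intro m hm
    have h1 : ∫ y in Ioi (0 : ℝ), (1 - cos (m * y)) * y ^ (-1 - γ) =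
        ∫ y in Ioi (0 : ℝ), m ^ (1 + γ) * ((fun u => (1 - cos u) * u ^ (-1 - γ)) (m * y)) := by
      refine setIntegral_congr_fun measurableSet_Ioi (fun y hy => ?_)
      have hy0 : (0 : ℝ) < y := hy
      simp only
      rw [mul_rpow hm.le hy0.le]
      have : m ^ (1 + γ) * m ^ (-1 - γ) = 1 := by
        rw [← rpow_add hm, show 1 + γ + (-1 - γ) = 0 by ring, rpow_zero]
      linear_combination (-(1 - cos (m * y)) * y ^ (-1 - γ)) * this
    rw [h1, integral_const_mul, integral_comp_mul_left_Ioi (fun u => (1 - cos u) * u ^ (-1 - γ)) 0 hm,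
      mul_zero, smul_eq_mul, ← mul_assoc]
    congr 1
    rw [rpow_add hm, rpow_one]
    field_simp
  rcases lt_trichotomy n 0 with hn | hn | hn
  · rw [abs_of_neg hn, ← hpos (-n) (by linarith)]
    refine setIntegral_congr_fun measurableSet_Ioi (fun y _ => ?_)
    simp only [neg_mul, cos_neg]
  · subst hn
    simp [zero_rpow h0.ne']
  · rw [abs_of_pos hn]
    exact hpos n hn

/-- the kernel -/
def KK (n m y : ℝ) : ℝ := (cos (n * y) - 1) * (cos (m * y) - 1) + sin (n * y) * sin (m * y)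

lemma KK_eq (n m y : ℝ) :
    KK n m y = (1 - cos (n * y)) + (1 - cos (m * y)) - (1 - cos ((n - m) * y)) := by
  unfold KK
  rw [sub_mul n m y, cos_sub]
  ring

lemma KK_int {γ : ℝ} (h0 : 0 < γ) (h2 : γ < 2) (n m : ℝ) :
    IntegrableOn (fun y => KK n m y * y ^ (-1 - γ)) (Ioi 0) := by
  have h := ((integrable_base h0 h2 n).add (integrable_base h0 h2 m)).sub (integrable_base h0 h2 (n - m))
  refine h.congr (Eventually.of_forall (fun y => ?_))
  simp only [KK_eq, Pi.add_apply, Pi.sub_apply]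
  ring

lemma KK_integral {γ : ℝ} (h0 : 0 < γ) (h2 : γ < 2) (n m : ℝ) :
    ∫ y in Ioi (0 : ℝ), KK n m y * y ^ (-1 - γ) = 2 * CC γ * RH (γ / 2) n m := by
  have h : ∀ y : ℝ, KK n m y * y ^ (-1 - γ) =
      ((1 - cos (n * y)) * y ^ (-1 - γ) + (1 - cos (m * y)) * y ^ (-1 - γ)) -
        (1 - cos ((n - m) * y)) * y ^ (-1 - γ) := by
    intro y; rw [KK_eq]; ring
  simp only [h]
  have hadd : IntegrableOn (fun y => (1 - cos (n * y)) * y ^ (-1 - γ) + (1 - cos (m * y)) * y ^ (-1 - γ)) (Ioi 0) :=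
    (integrable_base h0 h2 n).add (integrable_base h0 h2 m)
  rw [integral_sub hadd (integrable_base h0 h2 (n - m)),
    integral_add (integrable_base h0 h2 n) (integrable_base h0 h2 m),
    scaling h0, scaling h0, scaling h0]
  unfold RH
  rw [show 2 * (γ / 2) = γ by ring]
  ring

lemma CC_pos {γ : ℝ} (h0 : 0 < γ) (h2 : γ < 2) : 0 < CC γ := by
  have hint : IntegrableOn (fun y => (1 - cos y) * y ^ (-1 - γ)) (Ioi 0) := by
    have := integrable_base h0 h2 1
    simpa using this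
  have h1 : ∫ y in Ioc (0 : ℝ) π, π ^ (-1 - γ) * (1 - cos y) ≤ CC γ := by
    unfold CC
    calc ∫ y in Ioc (0 : ℝ) π, π ^ (-1 - γ) * (1 - cos y)
        ≤ ∫ y in Ioc (0 : ℝ) π, (1 - cos y) * y ^ (-1 - γ) := by
          refine setIntegral_mono_on ?_ (hint.mono_set Ioc_subset_Ioi_self) measurableSet_Ioc (fun y hy => ?_)
          · exact (Continuous.integrableOn_Icc (by fun_prop)).mono_set Ioc_subset_Icc_self
          · rw [mul_comm]
            apply mul_le_mul_of_nonneg_left _ (by linarith [cos_le_one y])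
            exact rpow_le_rpow_of_nonpos hy.1 hy.2 (by linarith)
      _ ≤ _ := by
          refine setIntegral_mono_set hint ?_ (Eventually.of_forall Ioc_subset_Ioi_self)
          refine (ae_restrict_iff' measurableSet_Ioi).mpr (Eventually.of_forall (fun y hy => ?_))
          exact mul_nonneg (by linarith [cos_le_one y]) (rpow_nonneg (le_of_lt hy) _)
  have h3 : ∫ y in Ioc (0 : ℝ) π, π ^ (-1 - γ) * (1 - cos y) = π ^ (-1 - γ) * π := by
    rw [integral_const_mul, ← intervalIntegral.integral_of_le pi_pos.le,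
      intervalIntegral.integral_sub (by simp) (by exact continuous_cos.intervalIntegrable _ _)]
    simp
  have h4 : 0 < π ^ (-1 - γ) * π := by positivity
  linarith

section forms

variable {ι : Type*} [Fintype ι] (x : ι → ℝ)

/-- real quadratic form of the covariance matrix at positions `x` -/
def Q (γ : ℝ) (b : ι → ℝ) : ℝ := ∑ i, ∑ j, b i * b j * RH (γ / 2) (x i) (x j)

lemma sum_KK (b : ι → ℝ) (y : ℝ) : ∑ i, ∑ j, b i * b j * KK (x i) (x j) y =
    (∑ i, b i * (cos (x i * y) - 1)) ^ 2 + (∑ i, b i * sin (x i * y)) ^ 2 := by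
  rw [sq, sq, Finset.sum_mul_sum, Finset.sum_mul_sum, ← Finset.sum_add_distrib]
  refine Finset.sum_congr rfl (fun i _ => ?_)
  rw [← Finset.sum_add_distrib]
  refine Finset.sum_congr rfl (fun j _ => ?_)
  unfold KK
  ring

lemma integral_form {γ : ℝ} (h0 : 0 < γ) (h2 : γ < 2) (c : ι → ι → ℝ) :
    ∫ y in Ioi (0 : ℝ), (∑ i, ∑ j, c i j * KK (x i) (x j) y) * y ^ (-1 - γ) =
      2 * CC γ * ∑ i, ∑ j, c i j * RH (γ / 2) (x i) (x j) := by
  have h : ∀ y : ℝ, (∑ i, ∑ j, c i j * KK (x i) (x j) y) * y ^ (-1 - γ) =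
      ∑ i, ∑ j, c i j * (KK (x i) (x j) y * y ^ (-1 - γ)) := by
    intro y
    rw [Finset.sum_mul]
    refine Finset.sum_congr rfl (fun i _ => ?_)
    rw [Finset.sum_mul]
    refine Finset.sum_congr rfl (fun j _ => ?_)
    ring
  simp only [h]
  rw [integral_finsetSum _ (fun i _ => integrable_finsetSum _ (fun j _ => (KK_int h0 h2 (x i) (x j)).const_mul _)),
    Finset.mul_sum]
  refine Finset.sum_congr rfl (fun i _ => ?_)
  rw [integral_finsetSum _ (fun j _ => (KK_int h0 h2 (x i) (x j)).const_mul _), Finset.mul_sum]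
  refine Finset.sum_congr rfl (fun j _ => ?_)
  rw [integral_const_mul, KK_integral h0 h2]
  ring

lemma form_integrable {γ : ℝ} (h0 : 0 < γ) (h2 : γ < 2) (c : ι → ι → ℝ) :
    IntegrableOn (fun y => (∑ i, ∑ j, c i j * KK (x i) (x j) y) * y ^ (-1 - γ)) (Ioi 0) := by
  have h : ∀ y : ℝ, (∑ i, ∑ j, c i j * KK (x i) (x j) y) * y ^ (-1 - γ) =
      ∑ i, ∑ j, c i j * (KK (x i) (x j) y * y ^ (-1 - γ)) := by
    intro y
    rw [Finset.sum_mul]
    refine Finset.sum_congr rfl (fun i _ => ?_)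
    rw [Finset.sum_mul]
    refine Finset.sum_congr rfl (fun j _ => ?_)
    ring
  simp only [h]
  exact integrable_finsetSum _ (fun i _ => integrable_finsetSum _ (fun j _ => (KK_int h0 h2 (x i) (x j)).const_mul _))

/-- the constant of the lower bound -/
def lam (γ : ℝ) : ℝ := π ^ (-γ) / (2 * CC γ)

lemma lam_pos {γ : ℝ} (h0 : 0 < γ) (h2 : γ < 2) : 0 < lam γ := by
  unfold lam
  have := CC_pos h0 h2
  have := pi_pos
  positivity

end forms

lemma cos_int (k : ℤ) : ∫ y in (0 : ℝ)..π, cos ((k : ℝ) * y) = if k = 0 then π else 0 := by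
  split_ifs with h
  · subst h; simp
  · have hk : (k : ℝ) ≠ 0 := by exact_mod_cast h
    rw [intervalIntegral.integral_comp_mul_left (fun y => cos y) hk, integral_cos]
    simp [sin_int_mul_pi]

/-- positions 1,...,N -/
def pos (N : ℕ) (i : Fin N) : ℝ := (i : ℕ) + 1

lemma KK_pi (N : ℕ) (i j : Fin N) : ∫ y in (0 : ℝ)..π, KK (pos N i) (pos N j) y =
    π * ((if i = j then 1 else 0) + 1) := by
  have hci : ∀ k : ℝ, IntervalIntegrable (fun y => cos (k * y)) volume 0 π := fun k =>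
    (by fun_prop : Continuous (fun y : ℝ => cos (k * y))).intervalIntegrable _ _
  have h : ∀ y : ℝ, KK (pos N i) (pos N j) y =
      (cos ((((i : ℕ) : ℤ) - ((j : ℕ) : ℤ) : ℤ) * y) - cos ((((i : ℕ) : ℤ) + 1 : ℤ) * y)) +
        (1 - cos ((((j : ℕ) : ℤ) + 1 : ℤ) * y)) := by
    intro y
    rw [KK_eq]
    unfold pos
    push_cast
    rw [show ((i : ℕ) + 1 - ((j : ℕ) + 1) : ℝ) = (i : ℕ) - (j : ℕ) by ring]
    ring
  simp only [h]
  rw [intervalIntegral.integral_add ((hci _).sub (hci _)) ((by simp : IntervalIntegrable (fun _ => (1 : ℝ)) volume 0 π).sub (hci _)),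
    intervalIntegral.integral_sub (hci _) (hci _),
    intervalIntegral.integral_sub (by simp) (hci _), cos_int, cos_int, cos_int]
  have e1 : ((((i : ℕ) : ℤ) + 1 : ℤ) = 0) ↔ False := by
    constructor
    · intro h; omega
    · exact False.elim
  have e2 : ((((j : ℕ) : ℤ) + 1 : ℤ) = 0) ↔ False := by
    constructor
    · intro h; omega
    · exact False.elim
  have e3 : ((((i : ℕ) : ℤ) - ((j : ℕ) : ℤ) : ℤ) = 0) ↔ i = j := by
    rw [Fin.ext_iff]; omega
  simp only [e1, e2, e3, if_false]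
  simp
  split_ifs <;> ring

/-- lower bound for the covariance form -/
lemma Q_lower {γ : ℝ} (h0 : 0 < γ) (h2 : γ < 2) (N : ℕ) (b : Fin N → ℝ) :
    lam γ * ((∑ i, b i ^ 2) + (∑ i, b i) ^ 2) ≤ Q (pos N) γ b := by
  have hC := CC_pos h0 h2
  have hform := integral_form (pos N) h0 h2 (fun i j => b i * b j)
  have hint := form_integrable (pos N) h0 h2 (fun i j => b i * b j)
  have hnn : ∀ y : ℝ, 0 ≤ ∑ i, ∑ j, b i * b j * KK (pos N i) (pos N j) y := by
    intro y; rw [sum_KK]; positivity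
  have hcont : Continuous (fun y : ℝ => ∑ i, ∑ j, b i * b j * KK (pos N i) (pos N j) y) := by
    unfold KK; fun_prop
  have h1 : ∫ y in Ioc (0 : ℝ) π, π ^ (-1 - γ) * (∑ i, ∑ j, b i * b j * KK (pos N i) (pos N j) y) ≤
      ∫ y in Ioi (0 : ℝ), (∑ i, ∑ j, b i * b j * KK (pos N i) (pos N j) y) * y ^ (-1 - γ) := by
    calc ∫ y in Ioc (0 : ℝ) π, π ^ (-1 - γ) * (∑ i, ∑ j, b i * b j * KK (pos N i) (pos N j) y)
        ≤ ∫ y in Ioc (0 : ℝ) π, (∑ i, ∑ j, b i * b j * KK (pos N i) (pos N j) y) * y ^ (-1 - γ) := by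
          refine setIntegral_mono_on ?_ (hint.mono_set Ioc_subset_Ioi_self) measurableSet_Ioc (fun y hy => ?_)
          · exact (Continuous.integrableOn_Icc (hcont.const_mul _)).mono_set Ioc_subset_Icc_self
          · rw [mul_comm]
            apply mul_le_mul_of_nonneg_left _ (hnn y)
            exact rpow_le_rpow_of_nonpos hy.1 hy.2 (by linarith)
      _ ≤ _ := by
          refine setIntegral_mono_set hint ?_ (Eventually.of_forall Ioc_subset_Ioi_self)
          refine (ae_restrict_iff' measurableSet_Ioi).mpr (Eventually.of_forall (fun y hy => ?_))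
          exact mul_nonneg (hnn y) (rpow_nonneg (le_of_lt hy) _)
  have h3 : ∫ y in Ioc (0 : ℝ) π, π ^ (-1 - γ) * (∑ i, ∑ j, b i * b j * KK (pos N i) (pos N j) y) =
      π ^ (-1 - γ) * (π * ((∑ i, b i ^ 2) + (∑ i, b i) ^ 2)) := by
    rw [integral_const_mul, ← intervalIntegral.integral_of_le pi_pos.le]
    congr 1
    have hii : ∀ i j : Fin N, IntervalIntegrable (fun y => b i * b j * KK (pos N i) (pos N j) y) volume 0 π := by
      intro i j
      exact (by unfold KK; fun_prop : Continuous (fun y => b i * b j * KK (pos N i) (pos N j) y)).intervalIntegrable _ _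
    have hi1 : ∀ i : Fin N, IntervalIntegrable (fun y => ∑ j, b i * b j * KK (pos N i) (pos N j) y) volume 0 π := by
      intro i
      exact (by unfold KK; fun_prop : Continuous (fun y => ∑ j, b i * b j * KK (pos N i) (pos N j) y)).intervalIntegrable _ _
    rw [intervalIntegral.integral_finsetSum (fun i _ => hi1 i)]
    have h4 : ∀ i : Fin N, ∫ y in (0 : ℝ)..π, ∑ j, b i * b j * KK (pos N i) (pos N j) y =
        π * (b i ^ 2 + b i * ∑ j, b j) := by
      intro i
      rw [intervalIntegral.integral_finsetSum (fun j _ => hii i j)]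
      have h5 : ∀ j : Fin N, ∫ y in (0 : ℝ)..π, b i * b j * KK (pos N i) (pos N j) y =
          π * ((if i = j then b i * b j else 0) + b i * b j) := by
        intro j
        rw [intervalIntegral.integral_const_mul, KK_pi]
        split_ifs <;> ring
      rw [Finset.sum_congr rfl (fun j _ => h5 j), ← Finset.mul_sum, Finset.sum_add_distrib,
        Finset.sum_ite_eq, if_pos (Finset.mem_univ i), ← Finset.mul_sum]
      ring
    rw [Finset.sum_congr rfl (fun i _ => h4 i), ← Finset.mul_sum, Finset.sum_add_distrib,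
      ← Finset.sum_mul]
    ring
  have h6 : Q (pos N) γ b = (2 * CC γ)⁻¹ * ∫ y in Ioi (0 : ℝ), (∑ i, ∑ j, b i * b j * KK (pos N i) (pos N j) y) * y ^ (-1 - γ) := by
    rw [hform]
    unfold Q
    field_simp
  rw [h6]
  have h7 : lam γ * ((∑ i, b i ^ 2) + (∑ i, b i) ^ 2) =
      (2 * CC γ)⁻¹ * (π ^ (-1 - γ) * (π * ((∑ i, b i ^ 2) + (∑ i, b i) ^ 2))) := by
    unfold lam
    have : π ^ (-γ) = π ^ (-1 - γ) * π := by
      rw [show -γ = -1 - γ + 1 by ring, rpow_add pi_pos, rpow_one]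
    rw [this]
    ring
  rw [h7, ← h3]
  exact mul_le_mul_of_nonneg_left h1 (by positivity)

/-- the key comparison for real vectors -/
lemma key {γ : ℝ} (h0 : 0 < γ) (h2 : γ < 2) (N : ℕ) (a : Fin N → ℝ) :
    lam γ * Q (pos N) γ a ≤ ∑ i, ∑ j, a i * a j * (RH (γ / 2) (pos N i) (pos N j)) ^ 2 := by
  have hC := CC_pos h0 h2
  have hlam := lam_pos h0 h2
  have e1 := integral_form (pos N) h0 h2 (fun i j => a i * a j * RH (γ / 2) (pos N i) (pos N j))
  have i1 := form_integrable (pos N) h0 h2 (fun i j => a i * a j * RH (γ / 2) (pos N i) (pos N j))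
  have e2 := integral_form (pos N) h0 h2 (fun i j => a i * a j)
  have i2 := form_integrable (pos N) h0 h2 (fun i j => a i * a j)
  have hle : ∫ y in Ioi (0 : ℝ), lam γ * ((∑ i, ∑ j, a i * a j * KK (pos N i) (pos N j) y) * y ^ (-1 - γ)) ≤
      ∫ y in Ioi (0 : ℝ), (∑ i, ∑ j, a i * a j * RH (γ / 2) (pos N i) (pos N j) * KK (pos N i) (pos N j) y) * y ^ (-1 - γ) := by
    refine setIntegral_mono_on (i2.const_mul _) i1 measurableSet_Ioi (fun y hy => ?_)
    rw [← mul_assoc]
    apply mul_le_mul_of_nonneg_right _ (rpow_nonneg (le_of_lt hy) _)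
    have hq1 := Q_lower h0 h2 N (fun i => a i * (cos (pos N i * y) - 1))
    have hq2 := Q_lower h0 h2 N (fun i => a i * sin (pos N i * y))
    have hs : ∑ i, ∑ j, a i * a j * RH (γ / 2) (pos N i) (pos N j) * KK (pos N i) (pos N j) y =
        Q (pos N) γ (fun i => a i * (cos (pos N i * y) - 1)) + Q (pos N) γ (fun i => a i * sin (pos N i * y)) := by
      unfold Q
      rw [← Finset.sum_add_distrib]
      refine Finset.sum_congr rfl (fun i _ => ?_)
      rw [← Finset.sum_add_distrib]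
      refine Finset.sum_congr rfl (fun j _ => ?_)
      unfold KK
      ring
    rw [hs, sum_KK]
    have hn1 : 0 ≤ lam γ * ∑ i, (a i * (cos (pos N i * y) - 1)) ^ 2 :=
      mul_nonneg hlam.le (Finset.sum_nonneg (fun _ _ => sq_nonneg _))
    have hn2 : 0 ≤ lam γ * ∑ i, (a i * sin (pos N i * y)) ^ 2 :=
      mul_nonneg hlam.le (Finset.sum_nonneg (fun _ _ => sq_nonneg _))
    nlinarith
  rw [integral_const_mul, e1, e2] at hle
  have hsq : ∑ i, ∑ j, a i * a j * RH (γ / 2) (pos N i) (pos N j) * RH (γ / 2) (pos N i) (pos N j) =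
      ∑ i, ∑ j, a i * a j * (RH (γ / 2) (pos N i) (pos N j)) ^ 2 := by
    refine Finset.sum_congr rfl (fun i _ => Finset.sum_congr rfl (fun j _ => ?_))
    ring
  rw [hsq] at hle
  unfold Q
  have h2C : 0 < 2 * CC γ := by positivity
  have : 2 * CC γ * (lam γ * ∑ i, ∑ j, a i * a j * RH (γ / 2) (pos N i) (pos N j)) ≤
      2 * CC γ * ∑ i, ∑ j, a i * a j * (RH (γ / 2) (pos N i) (pos N j)) ^ 2 := by
    calc _ = lam γ * (2 * CC γ * ∑ i, ∑ j, a i * a j * RH (γ / 2) (pos N i) (pos N j)) := by ring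
      _ ≤ _ := hle
  exact le_of_mul_le_mul_left this h2C

/-- complex form splits into real and imaginary parts -/
lemma quadForm_split {N : ℕ} (M : Matrix (Fin N) (Fin N) ℝ) (a : Fin N → ℂ) :
    quadForm M a = (∑ i, ∑ j, (a i).re * (a j).re * M i j) + ∑ i, ∑ j, (a i).im * (a j).im * M i j := by
  unfold quadForm
  rw [Complex.re_sum, ← Finset.sum_add_distrib]
  refine Finset.sum_congr rfl (fun i _ => ?_)
  rw [Complex.re_sum, ← Finset.sum_add_distrib]
  refine Finset.sum_congr rfl (fun j _ => ?_)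
  simp [Complex.mul_re]
  ring

lemma cov_lower {γ : ℝ} (h0 : 0 < γ) (h2 : γ < 2) (N : ℕ) (a : Fin N → ℂ) :
    lam γ * ∑ i, Complex.normSq (a i) ≤ quadForm (covMatrix (γ / 2) N) a := by
  rw [quadForm_split]
  have h1 := Q_lower h0 h2 N (fun i => (a i).re)
  have h3 := Q_lower h0 h2 N (fun i => (a i).im)
  have hlam := lam_pos h0 h2
  have e1 : Q (pos N) γ (fun i => (a i).re) = ∑ i, ∑ j, (a i).re * (a j).re * covMatrix (γ / 2) N i j := rfl
  have e2 : Q (pos N) γ (fun i => (a i).im) = ∑ i, ∑ j, (a i).im * (a j).im * covMatrix (γ / 2) N i j := rfl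
  rw [← e1, ← e2]
  have e3 : ∑ i, Complex.normSq (a i) = (∑ i, (a i).re ^ 2) + ∑ i, (a i).im ^ 2 := by
    rw [← Finset.sum_add_distrib]
    refine Finset.sum_congr rfl (fun i _ => ?_)
    rw [Complex.normSq_apply]; ring
  rw [e3]
  have hn1 : 0 ≤ lam γ * (∑ i, (a i).re) ^ 2 := by positivity
  have hn2 : 0 ≤ lam γ * (∑ i, (a i).im) ^ 2 := by positivity
  nlinarith

lemma cov_pos {γ : ℝ} (h0 : 0 < γ) (h2 : γ < 2) (N : ℕ) (a : Fin N → ℂ) (ha : a ≠ 0) :
    0 < quadForm (covMatrix (γ / 2) N) a := by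
  refine lt_of_lt_of_le ?_ (cov_lower h0 h2 N a)
  apply mul_pos (lam_pos h0 h2)
  obtain ⟨i, hi⟩ := Function.ne_iff.mp ha
  exact Finset.sum_pos' (fun _ _ => Complex.normSq_nonneg _) ⟨i, Finset.mem_univ i, Complex.normSq_pos.mpr hi⟩

lemma ratio_ge {γ : ℝ} (h0 : 0 < γ) (h2 : γ < 2) (N : ℕ) (a : Fin N → ℂ) (ha : a ≠ 0) :
    lam γ ≤ quadForm (covMatrixSq (γ / 2) N) a / quadForm (covMatrix (γ / 2) N) a := by
  rw [le_div_iff₀ (cov_pos h0 h2 N a ha), quadForm_split, quadForm_split]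
  have h1 := key h0 h2 N (fun i => (a i).re)
  have h3 := key h0 h2 N (fun i => (a i).im)
  rw [mul_add]
  exact add_le_add h1 h3

lemma bdd {γ : ℝ} (h0 : 0 < γ) (h2 : γ < 2) (N : ℕ) :
    BddBelow (range (fun a : {a : Fin N → ℂ // a ≠ 0} =>
      quadForm (covMatrixSq (γ / 2) N) a.1 / quadForm (covMatrix (γ / 2) N) a.1)) :=
  ⟨lam γ, by rintro _ ⟨a, rfl⟩; exact ratio_ge h0 h2 N a.1 a.2⟩

lemma kappaN_ge {γ : ℝ} (h0 : 0 < γ) (h2 : γ < 2) (N : ℕ) : lam γ ≤ kappaN γ (N + 1) := by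
  have : Nonempty {a : Fin (N + 1) → ℂ // a ≠ 0} := ⟨⟨fun _ => 1, by
    intro h; have := congrFun h 0; simp at this⟩⟩
  exact le_ciInf (fun a => ratio_ge h0 h2 (N + 1) a.1 a.2)

lemma quad_snoc {N : ℕ} (M : Matrix (Fin (N + 1)) (Fin (N + 1)) ℝ) (a : Fin N → ℂ) :
    quadForm M (Fin.snoc a 0 : Fin (N + 1) → ℂ) =
      quadForm (M.submatrix Fin.castSucc Fin.castSucc) a := by
  unfold quadForm
  rw [Fin.sum_univ_castSucc]
  simp only [Fin.snoc_last, Fin.snoc_castSucc, Fin.sum_univ_castSucc, star_zero, zero_mul,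
    mul_zero, add_zero, Finset.sum_const_zero, Matrix.submatrix_apply]

lemma kappaN_anti {γ : ℝ} (h0 : 0 < γ) (h2 : γ < 2) : Antitone (fun N => kappaN γ (N + 1)) := by
  apply antitone_nat_of_succ_le
  intro N
  have : Nonempty {a : Fin (N + 1) → ℂ // a ≠ 0} := ⟨⟨fun _ => 1, by
    intro h; have := congrFun h 0; simp at this⟩⟩
  refine le_ciInf (fun a => ?_)
  have hne : (Fin.snoc a.1 0 : Fin (N + 2) → ℂ) ≠ 0 := by
    intro h
    apply a.2
    funext i
    have := congrFun h (Fin.castSucc i)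
    simpa using this
  have h1 := ciInf_le (bdd h0 h2 (N + 2)) ⟨Fin.snoc a.1 0, hne⟩
  refine le_trans h1 (le_of_eq ?_)
  simp only
  rw [quad_snoc, quad_snoc]
  rfl

/-- For every `γ ∈ (0,2)` the sequence `κ(γ,N)` converges to a positive limit `κ(γ)`. -/
theorem result : ∀ γ : ℝ, 0 < γ → γ < 2 →
    ∃ κ : ℝ, 0 < κ ∧ Tendsto (fun N => kappaN γ N) atTop (𝓝 κ) := by
  intro γ h0 h2
  refine ⟨⨅ N, kappaN γ (N + 1), ?_, ?_⟩
  · exact lt_of_lt_of_le (lam_pos h0 h2) (le_ciInf (fun N => kappaN_ge h0 h2 N))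
  · rw [← tendsto_add_atTop_iff_nat 1]
    exact tendsto_atTop_ciInf (kappaN_anti h0 h2) ⟨lam γ, by rintro _ ⟨N, rfl⟩; exact kappaN_ge h0 h2 N⟩

end

end Pool.Agent.Results.MP_271f9a_pr.KappaPositive
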